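import Pool.Agent.Results.MP_0cd67c_ag.ZeroSumPreservers

set_option autoImplicit false

open Polynomial Finset

namespace X190.ZSum

open Pool.Agent.H635Z Pool.Agent.Results.MP_0cd67c_ag.ZeroSumPreservers

/-- abstract sign structure of multiplier sequences -/
theorem sign_struct (n : ℕ) (m : ℕ → ℝ) (hA : ∀ k, k + 2 ≤ n → 0 ≤ m k * m (k + 2))
    (hB : ∀ j, j + 1 ≤ n → m j ≠ 0 → m (j + 1) = 0 → ∀ k, j + 1 ≤ k → k ≤ n → m k = 0) :
    (∀ k ≤ n, m k = 0) ∨ ∃ s e : ℝ, s ≠ 0 ∧ (e = 1 ∨ e = -1) ∧ ∀ k ≤ n, 0 ≤ s * e ^ k * m k := by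
  classical
  by_cases hall : ∀ k ≤ n, m k = 0
  · exact Or.inl hall
  right
  push Not at hall
  let a := Nat.find hall
  obtain ⟨han, ham⟩ : a ≤ n ∧ m a ≠ 0 := Nat.find_spec hall
  have hlt : ∀ k < a, m k = 0 := by
    intro k hk
    by_contra h
    exact Nat.find_min hall hk ⟨hk.le.trans han, h⟩
  -- zeros persist
  have hz : ∀ i, 1 ≤ i → a + i ≤ n → m (a + i) = 0 → ∀ k, a + i ≤ k → k ≤ n → m k = 0 := by
    intro i
    induction i with
    | zero => intro h; omega
    | succ i ih =>
      intro _ hi h0 k hk hkn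
      by_cases hp : m (a + i) = 0
      · rcases Nat.eq_zero_or_pos i with rfl | hi0
        · exact absurd hp ham
        · exact ih hi0 (by omega) hp k (by omega) hkn
      · exact hB (a + i) hi hp h0 k hk hkn
  let e : ℝ := if 0 ≤ m a * m (a + 1) then 1 else -1
  have he : e = 1 ∨ e = -1 := by
    unfold e
    split_ifs
    · exact Or.inl rfl
    · exact Or.inr rfl
  have he2 : e ^ 2 = 1 := by
    rcases he with h | h <;> rw [h] <;> norm_num
  have key : ∀ i, (a + i ≤ n → 0 ≤ m a * e ^ i * m (a + i)) ∧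
      (a + (i + 1) ≤ n → 0 ≤ m a * e ^ (i + 1) * m (a + (i + 1))) := by
    intro i
    induction i with
    | zero =>
      refine ⟨fun _ => ?_, fun _ => ?_⟩
      · rw [pow_zero, mul_one, add_zero]
        exact mul_self_nonneg _
      · rw [zero_add, pow_one]
        unfold e
        split_ifs with h
        · linarith
        · push Not at h
          linarith
    | succ i ih =>
      refine ⟨ih.2, fun hi => ?_⟩
      have h1 := ih.1 (by omega)
      by_cases h0 : m (a + i) = 0
      · have h2 : m (a + (i + 1 + 1)) = 0 := by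
          rcases Nat.eq_zero_or_pos i with rfl | hi0
          · exact absurd h0 ham
          · exact hz i hi0 (by omega) h0 _ (by omega) hi
        rw [h2, mul_zero]
      · have h2 := hA (a + i) (by omega)
        have h3 : m (a + (i + 1 + 1)) = m (a + i + 2) := by congr 1
        rw [h3]
        have h4 : e ^ (i + 1 + 1) = e ^ i := by
          rw [pow_succ, pow_succ, mul_assoc, ← pow_two, he2, mul_one]
        rw [h4]
        have h5 : 0 < m (a + i) ^ 2 := by positivity
        have h6 : 0 ≤ (m a * e ^ i * m (a + i)) * (m (a + i) * m (a + i + 2)) := mul_nonneg h1 h2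
        by_contra hneg
        push Not at hneg
        nlinarith
  refine ⟨m a * e ^ a, e, ?_, he, ?_⟩
  · apply mul_ne_zero ham
    apply pow_ne_zero
    intro h
    rw [h] at he2
    norm_num at he2
  · intro k hk
    rcases Nat.lt_or_ge k a with h | h
    · rw [hlt k h, mul_zero]
    · obtain ⟨i, rfl⟩ := Nat.exists_eq_add_of_le h
      have h1 := (key i).1 hk
      have h2 : e ^ a * e ^ (a + i) = e ^ i := by
        rw [← pow_add, show a + (a + i) = 2 * a + i by ring, pow_add, pow_mul, he2, one_pow,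
          one_mul]
      calc (0 : ℝ) ≤ m a * e ^ i * m (a + i) := h1
        _ = m a * e ^ a * e ^ (a + i) * m (a + i) := by rw [← h2]; ring

theorem chain {d : ℕ} {lam : ℕ → ℝ}
    (hpres : ∀ p : ℝ[X], p.natDegree ≤ d → p.coeff (d - 1) = 0 → p.Splits →
      ∀ Q : ℝ[X], (∀ k, Q.coeff k = lam k * p.coeff k) → Q.Splits)
    (k : ℕ) (hk : k + 2 ≤ d) (hk1 : k + 2 ≠ d - 1) (hk2 : k ≠ d - 1) : 0 ≤ lam k * lam (k + 2) := by
  have h1 : ((X : ℝ[X]) ^ k * ((X - C 1) * (X - C (-1)))).Splits :=
    (Splits.X_pow k).mul ((Splits.X_sub_C _).mul (Splits.X_sub_C _))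
  have h2 : ((X : ℝ[X]) ^ k * ((X - C 1) * (X - C (-1)))) = X ^ (k + 2) - X ^ k := by
    simp only [C_neg, C_1]
    ring
  rw [h2] at h1
  by_contra hneg
  push Not at hneg
  have hb : lam (k + 2) ≠ 0 := by
    intro h
    rw [h, mul_zero] at hneg
    exact lt_irrefl _ hneg
  have h3 := hpres _ ?_ ?_ h1 (X ^ k * (C (lam (k + 2)) * X ^ 2 - C (lam k))) ?_
  · have hdeg : (C (lam (k + 2)) * X ^ 2 - C (lam k) : ℝ[X]).degree = 2 := by
      rw [degree_sub_eq_left_of_degree_lt]
      · exact degree_C_mul_X_pow 2 hb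
      · rw [degree_C_mul_X_pow 2 hb]
        exact lt_of_le_of_lt degree_C_le (by norm_num)
    have hne : (C (lam (k + 2)) * X ^ 2 - C (lam k) : ℝ[X]) ≠ 0 := by
      intro h
      rw [h, degree_zero] at hdeg
      exact absurd hdeg (by decide)
    have h4 : (C (lam (k + 2)) * X ^ 2 - C (lam k) : ℝ[X]).Splits :=
      h3.of_dvd (mul_ne_zero (pow_ne_zero _ X_ne_zero) hne) (dvd_mul_left _ _)
    obtain ⟨x, hx⟩ := h4.exists_eval_eq_zero (by rw [hdeg]; decide)
    simp only [eval_sub, eval_mul, eval_C, eval_pow, eval_X] at hx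
    have h5 : lam k = lam (k + 2) * x ^ 2 := by linarith
    rw [h5] at hneg
    nlinarith [mul_self_nonneg (lam (k + 2) * x)]
  · refine (natDegree_sub_le _ _).trans ?_
    rw [natDegree_X_pow, natDegree_X_pow]
    omega
  · rw [coeff_sub, coeff_X_pow, coeff_X_pow, if_neg (Ne.symm hk1), if_neg (Ne.symm hk2), sub_zero]
  · intro j
    have e1 : (X ^ k * (C (lam (k + 2)) * X ^ 2 - C (lam k)) : ℝ[X]) =
        C (lam (k + 2)) * X ^ (k + 2) - C (lam k) * X ^ k := by ring
    rw [e1, coeff_sub, coeff_sub, coeff_C_mul, coeff_C_mul, coeff_X_pow, coeff_X_pow]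
    by_cases hj : j = k + 2
    · subst hj
      rw [if_pos rfl, if_neg (by omega)]
      ring
    · by_cases hj2 : j = k
      · subst hj2
        rw [if_neg (by omega), if_pos rfl]
        ring
      · rw [if_neg hj, if_neg hj2]
        ring

theorem zeros {d : ℕ} (hd : 2 ≤ d) {lam : ℕ → ℝ}
    (hpres : ∀ p : ℝ[X], p.natDegree ≤ d → p.coeff (d - 1) = 0 → p.Splits →
      ∀ Q : ℝ[X], (∀ k, Q.coeff k = lam k * p.coeff k) → Q.Splits)
    (j : ℕ) (hj : j + 1 ≤ d - 2) (h0 : lam j ≠ 0) (h1 : lam (j + 1) = 0) (k : ℕ) (hk : j + 1 ≤ k)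
    (hkd : k ≤ d - 2) : lam k = 0 := by
  have hp : ((X + C 1 : ℝ[X]) ^ (d - 2)).Splits := (Splits.X_add_C 1).pow _
  have hpc : ∀ i, ((X + C 1 : ℝ[X]) ^ (d - 2)).coeff i = ((d - 2).choose i : ℝ) := by
    intro i
    rw [C_1, coeff_X_add_one_pow]
  have hdeg : ((X + C 1 : ℝ[X]) ^ (d - 2)).natDegree = d - 2 := by
    rw [natDegree_pow, natDegree_X_add_C, mul_one]
  let P : ℝ[X] := ∑ i ∈ range (d - 1), C (lam i * ((d - 2).choose i : ℝ)) * X ^ i
  have hPc : ∀ i, P.coeff i = lam i * ((d - 2).choose i : ℝ) := by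
    intro i
    unfold P
    rw [finsetSum_coeff]
    simp only [coeff_C_mul, coeff_X_pow, mul_ite, mul_one, mul_zero]
    rw [Finset.sum_ite_eq]
    split_ifs with h
    · rfl
    · rw [mem_range] at h
      rw [Nat.choose_eq_zero_of_lt (by omega)]
      simp
  have hP : P.Splits := hpres _ (by rw [hdeg]; omega) (by
    rw [hpc, Nat.choose_eq_zero_of_lt (by omega), Nat.cast_zero]) hp P (fun i => by
    rw [hPc, hpc])
  let φ : ℝ[X] := derivative^[j] P
  have hφ : φ.Splits := by
    have : ∀ n, (derivative^[n] P).Splits := by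
      intro n
      induction n with
      | zero => exact hP
      | succ n ih =>
        rw [Function.iterate_succ_apply']
        exact splits_derivative _ ih
    exact this j
  have hφc : ∀ i, φ.coeff i = ((i + j).descFactorial j : ℝ) * (lam (i + j) * ((d - 2).choose (i + j) : ℝ)) := by
    intro i
    unfold φ
    rw [coeff_iterate_derivative, hPc, nsmul_eq_mul]
  have hdf : ∀ i, 0 < ((i + j).descFactorial j : ℝ) := by
    intro i
    exact_mod_cast Nat.pos_of_ne_zero (by
      rw [Ne, Nat.descFactorial_eq_zero_iff_lt]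
      omega)
  have hch : ∀ i ≤ d - 2, 0 < ((d - 2).choose i : ℝ) := by
    intro i hi
    exact_mod_cast Nat.choose_pos hi
  have hφ0 : φ.eval 0 ≠ 0 := by
    rw [← coeff_zero_eq_eval_zero, hφc, zero_add]
    exact mul_ne_zero (by have := hdf 0; rw [zero_add] at this; exact this.ne')
      (mul_ne_zero h0 (hch j (by omega)).ne')
  have hφ1 : (derivative φ).eval 0 = 0 := by
    rw [← coeff_zero_eq_eval_zero, coeff_derivative, hφc, add_comm (0 + 1) j, zero_add, h1]
    simp
  have hφ2 : (derivative (derivative φ)).eval 0 = φ.coeff 2 * 2 := by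
    rw [← coeff_zero_eq_eval_zero, coeff_derivative, coeff_derivative]
    norm_num
  have hnd : φ.natDegree = 0 := by
    by_contra hne
    have h2 := Lg_pos φ hφ 0 hφ0 hne
    unfold Lg at h2
    rw [hφ1, hφ2, ← coeff_zero_eq_eval_zero, hφc, hφc, zero_add] at h2
    by_cases hj2 : j + 2 ≤ d - 2
    · have h3 := chain hpres j (by omega) (by omega) (by omega)
      have h4 : 2 + j = j + 2 := by ring
      rw [h4] at h2
      have h5 := hdf 0
      rw [zero_add] at h5
      have h6 := hdf 2
      rw [h4] at h6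
      have h7 := hch j (by omega)
      have h8 := hch (j + 2) hj2
      have h9 : 0 ≤ ((j.descFactorial j : ℝ) * ((d - 2).choose j : ℝ) * ((j + 2).descFactorial j : ℝ)
          * ((d - 2).choose (j + 2) : ℝ) * 2) * (lam j * lam (j + 2)) :=
        mul_nonneg (by positivity) h3
      nlinarith
    · rw [Nat.choose_eq_zero_of_lt (show d - 2 < 2 + j by omega)] at h2
      simp at h2
  have h3 : φ.coeff (k - j) = 0 := coeff_eq_zero_of_natDegree_lt (by omega)
  rw [hφc, show k - j + j = k by omega] at h3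
  have h4 := hdf (k - j)
  rw [show k - j + j = k by omega] at h4
  have h5 := hch k hkd
  rcases mul_eq_zero.1 h3 with h | h
  · exact absurd h h4.ne'
  · rcases mul_eq_zero.1 h with h | h
    · exact h
    · exact absurd h h5.ne'

end X190.ZSum
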