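import Pool.Agent.X190.ZSum.Nec

set_option autoImplicit false

open Polynomial Finset

namespace X190.ZSum

open Pool.Agent.H635Z Pool.Agent.Results.MP_0cd67c_ag.ZeroSumPreservers

theorem rolle (R : ℝ[X]) (e a b : ℝ) (he : e = 1 ∨ e = -1) (hab : a ≠ b) (ha : e * a ≤ 0)
    (hb : e * b ≤ 0) (h : R.eval a = R.eval b) : ∃ c, e * c < 0 ∧ (derivative R).eval c = 0 := by
  have key : ∀ a b : ℝ, a < b → e * a ≤ 0 → e * b ≤ 0 → R.eval a = R.eval b →
      ∃ c, e * c < 0 ∧ (derivative R).eval c = 0 := by
    intro a b hab ha hb h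
    obtain ⟨c, hc, hc0⟩ := exists_hasDerivAt_eq_zero (f := fun x => R.eval x)
      (f' := fun x => (derivative R).eval x) hab R.continuous.continuousOn h
      (fun x _ => R.hasDerivAt x)
    refine ⟨c, ?_, hc0⟩
    rcases he with rfl | rfl
    · have := hc.2
      linarith
    · have := hc.1
      linarith
  rcases lt_or_gt_of_ne hab with h1 | h1
  · exact key a b h1 ha hb h
  · exact key b a h1 hb ha h.symm

theorem reflect_split (Q : ℝ[X]) (hQ : Q.Splits) (d : ℕ) (hd : Q.natDegree ≤ d) :
    reflect d Q = X ^ (d - Q.natDegree) * (C Q.leadingCoeff * LM Q.roots) := by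
  have h1 : reflect Q.natDegree Q = C Q.leadingCoeff * LM Q.roots := by
    conv_lhs => rw [hQ.eq_prod_roots]
    rw [reflect_C_mul, ← reflect_LM]
    congr 2
    rw [← hQ.eq_prod_roots, hQ.natDegree_eq_card_roots]
  have h2 := reflect_mul (1 : ℝ[X]) Q (F := d - Q.natDegree) (G := Q.natDegree)
    (by rw [natDegree_one]; omega) le_rfl
  rw [one_mul, reflect_one, h1, Nat.sub_add_cancel hd] at h2
  exact h2

theorem coeff_zero_big {d : ℕ} (hd : 1 ≤ d) {lam : ℕ → ℝ} {Q : ℝ[X]}
    (hQ : ∀ k, Q.coeff k = lam k * (g0 d).coeff k) {k : ℕ} (hk : d < k) : Q.coeff k = 0 := by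
  rw [hQ, coeff_eq_zero_of_natDegree_lt (lt_of_le_of_lt (g0_mem d hd).1 hk), mul_zero]

theorem natDegree_Q {d : ℕ} (hd : 1 ≤ d) {lam : ℕ → ℝ} {Q : ℝ[X]}
    (hQ : ∀ k, Q.coeff k = lam k * (g0 d).coeff k) : Q.natDegree ≤ d := by
  rw [natDegree_le_iff_coeff_eq_zero]
  intro k hk
  exact coeff_zero_big hd hQ hk

theorem reflect_Q_coeff {d : ℕ} (hd : 1 ≤ d) {lam : ℕ → ℝ} {Q : ℝ[X]}
    (hQ : ∀ k, Q.coeff k = lam k * (g0 d).coeff k) (i : ℕ) (hi : i ≤ d) :
    (reflect d Q).coeff i = lam (d - i) * ((1 - (i : ℝ)) * ((-1) ^ i * (d.choose i : ℝ))) := by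
  rw [← reflect_g0_coeff d hd i, coeff_reflect, coeff_reflect, revAt_le hi, hQ]

theorem der_ne {d : ℕ} (hd : 2 ≤ d) {lam : ℕ → ℝ} {s e : ℝ} (hs : s ≠ 0)
    (he : e = 1 ∨ e = -1) (h : ∀ k ≤ d - 2, 0 ≤ s * e ^ k * lam k)
    (hne : ∃ k ≤ d - 2, lam k ≠ 0) (Q : ℝ[X]) (hQ : ∀ k, Q.coeff k = lam k * (g0 d).coeff k)
    (u : ℝ) (hu : e * u < 0) : (derivative (reflect d Q)).eval u ≠ 0 := by
  have he2 : e ^ 2 = 1 := by
    rcases he with h | h <;> rw [h] <;> norm_num
  have hRd : (reflect d Q).natDegree ≤ d := by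
    rw [natDegree_le_iff_coeff_eq_zero]
    intro k hk
    rw [coeff_reflect, revAt_eq_self_of_lt hk]
    exact coeff_zero_big (by omega) hQ hk
  have hdd : (derivative (reflect d Q)).natDegree < d :=
    lt_of_le_of_lt (natDegree_derivative_le _) (by omega)
  have hev : s * e ^ (d - 1) * (derivative (reflect d Q)).eval u =
      ∑ i ∈ range d, ((i : ℝ) * (i + 1) * (d.choose (i + 1) : ℝ)) *
        ((s * e ^ (d - 1 - i) * lam (d - 1 - i)) * (-(e * u)) ^ i) := by
    rw [eval_eq_sum_range' hdd, mul_sum]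
    apply sum_congr rfl
    intro i hi
    rw [mem_range] at hi
    rw [coeff_derivative, reflect_Q_coeff (by omega) hQ (i + 1) (by omega),
      show d - (i + 1) = d - 1 - i by omega]
    have h1 : (-(e * u)) ^ i = (-1) ^ i * (e ^ i * u ^ i) := by
      rw [neg_pow, mul_pow]
    have h2 : e ^ (d - 1) = e ^ (d - 1 - i) * e ^ i := by
      rw [← pow_add]
      congr 1
      omega
    rw [h1, h2, pow_succ (-1 : ℝ) i]
    push_cast
    ring
  have hpos : 0 < s * e ^ (d - 1) * (derivative (reflect d Q)).eval u := by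
    rw [hev]
    apply sum_pos'
    · intro i hi
      rw [mem_range] at hi
      rcases Nat.eq_zero_or_pos i with rfl | hi0
      · simp
      · apply mul_nonneg (by positivity)
        exact mul_nonneg (h _ (by omega)) (pow_nonneg (by linarith) _)
    · obtain ⟨k, hk, hk0⟩ := hne
      refine ⟨d - 1 - k, by rw [mem_range]; omega, ?_⟩
      have h3 : 0 < ((d - 1 - k : ℕ) : ℝ) := by
        exact_mod_cast (show 0 < d - 1 - k by omega)
      have h4 : 0 < (d.choose (d - 1 - k + 1) : ℝ) := by
        exact_mod_cast Nat.choose_pos (by omega)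
      apply mul_pos
      · positivity
      · apply mul_pos
        · rw [show d - 1 - (d - 1 - k) = k by omega]
          apply lt_of_le_of_ne (h k hk)
          apply Ne.symm
          apply mul_ne_zero (mul_ne_zero hs _) hk0
          apply pow_ne_zero
          intro h0
          rw [h0] at he2
          norm_num at he2
        · exact pow_pos (by linarith) _
  intro h0
  rw [h0, mul_zero] at hpos
  exact lt_irrefl _ hpos

theorem at_most_one {d : ℕ} (Q : ℝ[X]) (hQs : Q.Splits) (hdeg : Q.natDegree ≤ d) (e : ℝ)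
    (he : e = 1 ∨ e = -1)
    (hR : ∀ u, e * u < 0 → (derivative (reflect d Q)).eval u ≠ 0) :
    Multiset.card (Q.roots.filter (fun x => e * x < 0)) ≤ 1 := by
  by_contra hcon
  push Not at hcon
  obtain ⟨x, hx⟩ := Multiset.card_pos_iff_exists_mem.1 (show 0 < Multiset.card
    (Q.roots.filter (fun x => e * x < 0)) by omega)
  obtain ⟨F', hF'⟩ := Multiset.exists_cons_of_mem hx
  have hc' : 0 < Multiset.card F' := by
    rw [hF', Multiset.card_cons] at hcon
    omega
  obtain ⟨y, hy⟩ := Multiset.card_pos_iff_exists_mem.1 hc'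
  obtain ⟨F'', hF''⟩ := Multiset.exists_cons_of_mem hy
  have hy2 : y ∈ Q.roots.filter (fun x => e * x < 0) := by
    rw [hF']
    exact Multiset.mem_cons_of_mem hy
  have hxe := (Multiset.mem_filter.1 hx).2
  have hye := (Multiset.mem_filter.1 hy2).2
  have hM : Q.roots = x ::ₘ y ::ₘ (F'' + Q.roots.filter (fun x => ¬ e * x < 0)) := by
    conv_lhs => rw [← Multiset.filter_add_not (fun x => e * x < 0) Q.roots]
    rw [hF', hF'', Multiset.cons_add, Multiset.cons_add]
  have hx0 : x ≠ 0 := by
    rintro rfl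
    simp at hxe
  have hy0 : y ≠ 0 := by
    rintro rfl
    simp at hye
  have hxi : e * x⁻¹ < 0 := by
    rcases he with rfl | rfl
    · rw [one_mul] at hxe ⊢
      exact inv_lt_zero.2 hxe
    · have : 0 < x⁻¹ := inv_pos.2 (by linarith)
      linarith
  have hyi : e * y⁻¹ < 0 := by
    rcases he with rfl | rfl
    · rw [one_mul] at hye ⊢
      exact inv_lt_zero.2 hye
    · have : 0 < y⁻¹ := inv_pos.2 (by linarith)
      linarith
  have hRe := reflect_split Q hQs d hdeg
  rw [hM, LM_cons, LM_cons] at hRe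
  set W := LM (F'' + Q.roots.filter (fun x => ¬ e * x < 0)) with hW
  have ex : (1 - C x * X : ℝ[X]).eval x⁻¹ = 0 := by
    simp [mul_inv_cancel₀ hx0]
  have ey : (1 - C y * X : ℝ[X]).eval y⁻¹ = 0 := by
    simp [mul_inv_cancel₀ hy0]
  by_cases hxy : x = y
  · apply hR _ hxi
    rw [hRe, ← hxy]
    have h1 : (X ^ (d - Q.natDegree) * (C Q.leadingCoeff * ((1 - C x * X) * ((1 - C x * X) * W))) :
        ℝ[X]) = (1 - C x * X) * ((1 - C x * X) * (X ^ (d - Q.natDegree) *
          (C Q.leadingCoeff * W))) := by ring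
    rw [h1, derivative_mul, derivative_mul]
    simp only [eval_add, eval_mul]
    rw [ex]
    ring
  · have h2 : x⁻¹ ≠ y⁻¹ := fun h => hxy (inv_injective h)
    obtain ⟨c, hc, hc0⟩ := rolle (reflect d Q) e x⁻¹ y⁻¹ he h2 hxi.le hyi.le (by
      rw [hRe]
      simp only [eval_mul]
      rw [ex, ey]
      ring)
    exact hR c hc hc0

theorem none_of_zero {d : ℕ} (Q : ℝ[X]) (hQs : Q.Splits) (hdeg : Q.natDegree ≤ d) (e : ℝ)
    (he : e = 1 ∨ e = -1) (hd0 : Q.coeff d = 0)
    (hR : ∀ u, e * u < 0 → (derivative (reflect d Q)).eval u ≠ 0) :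
    ∀ x ∈ Q.roots, 0 ≤ e * x := by
  intro x hx
  by_contra hcon
  push Not at hcon
  have hx0 : x ≠ 0 := by
    rintro rfl
    simp at hcon
  have hxi : e * x⁻¹ < 0 := by
    rcases he with rfl | rfl
    · rw [one_mul] at hcon ⊢
      exact inv_lt_zero.2 hcon
    · have : 0 < x⁻¹ := inv_pos.2 (by linarith)
      linarith
  obtain ⟨F', hF'⟩ := Multiset.exists_cons_of_mem hx
  have hRe := reflect_split Q hQs d hdeg
  rw [hF', LM_cons] at hRe
  have ex : (1 - C x * X : ℝ[X]).eval x⁻¹ = 0 := by
    simp [mul_inv_cancel₀ hx0]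
  obtain ⟨c, hc, hc0⟩ := rolle (reflect d Q) e x⁻¹ 0 he (inv_ne_zero hx0) hxi.le (by simp) (by
    have h1 : (reflect d Q).eval 0 = 0 := by
      rw [← coeff_zero_eq_eval_zero, coeff_reflect, revAt_le (Nat.zero_le _), Nat.sub_zero, hd0]
    rw [h1, hRe]
    simp only [eval_mul]
    rw [ex]
    ring)
  exact hR c hc hc0

theorem necessity {d : ℕ} (hd : 2 ≤ d) {lam : ℕ → ℝ}
    (hpres : ∀ p : ℝ[X], p.natDegree ≤ d → p.coeff (d - 1) = 0 → p.Splits →
      ∀ Q : ℝ[X], (∀ k, Q.coeff k = lam k * p.coeff k) → Q.Splits)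
    (Q : ℝ[X]) (hQ : ∀ k, Q.coeff k = lam k * (g0 d).coeff k) :
    (lam d ≠ 0 → SameSign d Q) ∧
    (lam d = 0 → (∀ x ∈ Q.roots, 0 ≤ x) ∨ (∀ x ∈ Q.roots, x ≤ 0)) := by
  classical
  have hg0 : (g0 d).Splits := by
    unfold g0
    rw [← C_1]
    exact ((Splits.X_sub_C 1).pow _).mul (Splits.X_add_C _)
  have hQs : Q.Splits := hpres _ (g0_mem d (by omega)).1 (g0_mem d (by omega)).2 hg0 Q hQ
  have hQd : Q.natDegree ≤ d := natDegree_Q (by omega) hQ
  have hg0d : (g0 d).coeff d = 1 := by
    have := reflect_g0_coeff d (by omega) 0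
    rw [coeff_reflect, revAt_le (Nat.zero_le _), Nat.sub_zero] at this
    rw [this]
    simp
  by_cases hall : ∀ k ≤ d - 2, lam k = 0
  · -- all lower multipliers vanish
    have hQe : Q = C (lam d) * X ^ d := by
      ext k
      rw [hQ, coeff_C_mul, coeff_X_pow]
      by_cases hk : k = d
      · rw [if_pos hk, hk, hg0d]
      · rw [if_neg hk]
        rcases Nat.lt_or_ge k d with h | h
        · by_cases hk1 : k = d - 1
          · have h2 : (g0 d).coeff (d - 1) = 0 := (g0_mem d (by omega)).2
            rw [hk1, h2]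
            simp
          · rw [hall k (by omega)]
            simp
        · rw [coeff_eq_zero_of_natDegree_lt (lt_of_le_of_lt (g0_mem d (by omega)).1
            (show d < k by omega))]
          simp
    constructor
    · intro h0
      left
      rw [hQe, roots_C_mul_X_pow h0, Multiset.filter_eq_self.2 (fun x hx => ?_),
        Multiset.card_nsmul, Multiset.card_singleton]
      · omega
      · rw [Multiset.mem_singleton.1 (Multiset.mem_of_mem_nsmul hx)]
    · intro h0
      left
      rw [hQe, h0, C_0, zero_mul, roots_zero]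
      simp
  · rcases sign_struct (d - 2) lam
      (fun k hk => chain hpres k (by omega) (by omega) (by omega))
      (fun j hj h0 h1 k hk hkd => zeros hd hpres j hj h0 h1 k hk hkd) with hall' | ⟨s, e, hs, he, hse⟩
    · exact absurd hall' hall
    · push Not at hall
      have hR := der_ne hd hs he hse hall Q hQ
      constructor
      · intro h0
        have h1 := at_most_one Q hQs hQd e he hR
        have hQ0 : Q.coeff d ≠ 0 := by
          rw [hQ, hg0d, mul_one]
          exact h0
        have hnd : Q.natDegree = d := le_antisymm hQd (le_natDegree_of_ne_zero hQ0)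
        have hcard : Multiset.card Q.roots = d := by rw [← hQs.natDegree_eq_card_roots, hnd]
        have h2 := congrArg Multiset.card (Multiset.filter_add_not (fun x => e * x < 0) Q.roots)
        rw [Multiset.card_add, hcard] at h2
        have h3 : d - 1 ≤ Multiset.card (Q.roots.filter (fun x => ¬ e * x < 0)) := by omega
        rcases he with rfl | rfl
        · left
          refine h3.trans (le_of_eq ?_)
          congr 1
          apply Multiset.filter_congr
          intro x _
          rw [one_mul, not_lt]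
        · right
          refine h3.trans (le_of_eq ?_)
          congr 1
          apply Multiset.filter_congr
          intro x _
          rw [not_lt]
          constructor
          · intro h
            linarith
          · intro h
            linarith
      · intro h0
        have h1 := none_of_zero Q hQs hQd e he (by rw [hQ, h0, zero_mul]) hR
        rcases he with rfl | rfl
        · left
          intro x hx
          have := h1 x hx
          linarith
        · right
          intro x hx
          have := h1 x hx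
          linarith

end X190.ZSum
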