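import Pool.Agent.X190.ZSum.Nec2

set_option autoImplicit false

open Polynomial Finset

namespace X190.ZSum

open Pool.Agent.H635Z Pool.Agent.Results.MP_0cd67c_ag.ZeroSumPreservers

theorem reflect_eq {d : ℕ} (hd : 2 ≤ d) {lam : ℕ → ℝ} {g P Q : ℝ[X]} (hg1 : g.natDegree ≤ d)
    (hg2 : g.coeff (d - 1) = 0) (hP : ∀ k, P.coeff k = lam k * g.coeff k)
    (hQ : ∀ k, Q.coeff k = lam k * (g0 d).coeff k) :
    reflect d P = fP d (reflect d g) (reflect d Q) := by
  ext k
  rw [fP_coeff]
  split_ifs with hk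
  · rw [reflect_Q_coeff (by omega) hQ k hk, coeff_reflect, coeff_reflect, revAt_le hk, hP]
    by_cases hk1 : k = 1
    · subst hk1
      rw [hg2]
      simp
    · unfold kap
      have c0 : (d.choose k : ℝ) ≠ 0 := by exact_mod_cast (Nat.choose_pos hk).ne'
      have c1 : (1 - (k : ℝ)) ≠ 0 := by
        intro h
        apply hk1
        have : (k : ℝ) = 1 := by linarith
        exact_mod_cast this
      have c2 : ((-1 : ℝ) ^ k) * (-1) ^ k = 1 := by rw [← mul_pow]; simp
      field_simp
      linear_combination (-(lam (d - k) * g.coeff (d - k))) * c2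
  · rw [coeff_reflect, revAt_eq_self_of_lt (by omega), hP,
      coeff_eq_zero_of_natDegree_lt (show g.natDegree < k by omega), mul_zero]

theorem nn (N : ℕ) (g : ℝ[X]) (hg : g.Splits) (hgd : g.natDegree ≤ N + 2)
    (hg1 : g.coeff (N + 1) = 0) (M : Multiset ℝ) (hM : ∀ x ∈ M, 0 ≤ x) (μ : ℕ) (hμ : 1 ≤ μ)
    (hcard : Multiset.card M + μ = N + 1) :
    (fP (N + 2) (reflect (N + 2) g) (LM M * X ^ (μ + 1))).Splits := by
  classical
  let F : ℝ → ℝ[X] := fun t => LM M * (∏ _i ∈ range μ, (C t - C 1 * X)) *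
    (C t - C (-((μ : ℝ) + t * M.sum)) * X)
  have hF : CC F := by
    refine CC.mul (CC.mul (fun j => continuous_const) ?_) ?_
    · exact CC.prod _ (fun i _ => CC.lin continuous_id continuous_const)
    · exact CC.lin continuous_id (by fun_prop)
  have hcl := isClosed_splits (hF.fP (N + 2) (reflect (N + 2) g)) (N + 2)
    (fun t => fP_natDegree _ _ _)
  have hsub : Set.Ioi (0 : ℝ) ⊆ {t | (fP (N + 2) (reflect (N + 2) g) (F t)).Splits} := by
    intro t ht
    have ht0 : t ≠ 0 := (Set.mem_Ioi.1 ht).ne'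
    obtain ⟨a, ha⟩ := exists_family (κ := Fin (N + 1)) (M + Multiset.replicate μ t⁻¹) (by
      rw [Multiset.card_add, Multiset.card_replicate, Fintype.card_fin]; omega)
    have ha0 : ∀ i, 0 ≤ a i := by
      intro i
      have h1 : a i ∈ (univ : Finset (Fin (N + 1))).val.map a :=
        Multiset.mem_map_of_mem a (mem_univ i)
      rw [ha, Multiset.mem_add] at h1
      rcases h1 with h1 | h1
      · exact hM _ h1
      · rw [Multiset.eq_of_mem_replicate h1]
        exact (inv_pos.2 ht).le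
    have h1 : (∏ i, (1 - C (a i) * X) : ℝ[X]) = LM M * (1 - C t⁻¹ * X) ^ μ := by
      have := LP_eq_LM a
      rw [ha, LM_add] at this
      have h2 : LM (Multiset.replicate μ t⁻¹) = (1 - C t⁻¹ * X) ^ μ := by
        unfold LM
        rw [Multiset.map_replicate, Multiset.prod_replicate]
      rw [h2] at this
      exact this
    have h2 : ∑ i, a i = M.sum + μ * t⁻¹ := by
      rw [sum_eq_family, ha, Multiset.sum_add, Multiset.sum_replicate, nsmul_eq_mul]
    have hinv : (C t * C t⁻¹ : ℝ[X]) = 1 := by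
      rw [← C_mul, mul_inv_cancel₀ ht0, C_1]
    have h3 : F t = C (t ^ (μ + 1)) * PP a := by
      have e1 : (C t - C 1 * X : ℝ[X]) = C t * (1 - C t⁻¹ * X) := by
        rw [mul_sub, ← mul_assoc, hinv, C_1, mul_one]
      have e2 : (C t - C (-((μ : ℝ) + t * M.sum)) * X : ℝ[X]) =
          C t * (1 + C (M.sum + μ * t⁻¹) * X) := by
        rw [mul_add, ← mul_assoc, ← C_mul, mul_one]
        have : t * (M.sum + μ * t⁻¹) = (μ : ℝ) + t * M.sum := by
          field_simp
          ring
        rw [this, C_neg]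
        ring
      show LM M * (∏ _i ∈ range μ, (C t - C 1 * X)) * (C t - C (-((μ : ℝ) + t * M.sum)) * X) = _
      rw [e1, e2, prod_const, card_range, PP, h1, h2, mul_pow, pow_succ, C_mul, C_pow]
      ring
    show (fP (N + 2) (reflect (N + 2) g) (F t)).Splits
    rw [h3, fP_C_mul]
    exact (fP_splits N g hg hgd hg1 a ha0).C_mul _
  have h0 : (0 : ℝ) ∈ {t | (fP (N + 2) (reflect (N + 2) g) (F t)).Splits} := by
    apply (hcl.closure_subset_iff.2 hsub)
    rw [closure_Ioi]
    exact Set.self_mem_Ici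
  have h1 : (fP (N + 2) (reflect (N + 2) g) (F 0)).Splits := h0
  have h2 : F 0 = C ((-1) ^ μ * (μ : ℝ)) * (LM M * X ^ (μ + 1)) := by
    show LM M * (∏ _i ∈ range μ, (C 0 - C 1 * X)) * (C 0 - C (-((μ : ℝ) + 0 * M.sum)) * X) = _
    rw [prod_const, card_range, zero_mul, add_zero, C_0, C_1, C_neg, C_mul, C_pow, C_neg, C_1,
      zero_sub, zero_sub, one_mul, neg_pow]
    ring
  rw [h2, fP_C_mul] at h1
  have hc : ((-1) ^ μ * (μ : ℝ)) ≠ 0 := by
    apply mul_ne_zero (pow_ne_zero _ (by norm_num))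
    exact_mod_cast (show μ ≠ 0 by omega)
  have h3 := h1.C_mul ((-1) ^ μ * (μ : ℝ))⁻¹
  rw [← mul_assoc, ← C_mul, inv_mul_cancel₀ hc, C_1, one_mul] at h3
  exact h3

theorem suff_zero {d : ℕ} (hd : 2 ≤ d) {lam : ℕ → ℝ} (h0 : lam d = 0) {Q : ℝ[X]}
    (hQ : ∀ k, Q.coeff k = lam k * (g0 d).coeff k) (hQs : Q.Splits)
    (hroots : (∀ x ∈ Q.roots, 0 ≤ x) ∨ (∀ x ∈ Q.roots, x ≤ 0)) {g P : ℝ[X]} (hg : g.Splits)
    (hgd : g.natDegree ≤ d) (hg1 : g.coeff (d - 1) = 0)
    (hP : ∀ k, P.coeff k = lam k * g.coeff k) : P.Splits := by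
  obtain ⟨N, rfl⟩ : ∃ N, d = N + 2 := ⟨d - 2, by omega⟩
  have hrefl := reflect_eq (by omega) hgd hg1 hP hQ
  have hfs : (fP (N + 2) (reflect (N + 2) g) (reflect (N + 2) Q)).Splits := by
    by_cases hQ0 : Q = 0
    · have : fP (N + 2) (reflect (N + 2) g) (reflect (N + 2) Q) = 0 := by
        rw [hQ0, reflect_zero]
        ext k
        rw [fP_coeff]
        simp
      rw [this]
      exact Splits.zero
    have hQd : Q.natDegree ≤ N := by
      rw [natDegree_le_iff_coeff_eq_zero]
      intro k hk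
      rw [hQ]
      by_cases hk1 : k = N + 2
      · rw [hk1, h0, zero_mul]
      · by_cases hk2 : k = N + 1
        · have h2 : (g0 (N + 2)).coeff (N + 2 - 1) = 0 := (g0_mem (N + 2) (by omega)).2
          rw [hk2, show N + 1 = N + 2 - 1 by omega, h2, mul_zero]
        · rw [coeff_eq_zero_of_natDegree_lt (lt_of_le_of_lt (g0_mem (N + 2) (by omega)).1
            (show N + 2 < k by omega)), mul_zero]
    have hcard : Multiset.card Q.roots + (N + 1 - Q.natDegree) = N + 1 := by
      rw [← hQs.natDegree_eq_card_roots]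
      omega
    have h1 := reflect_split Q hQs (N + 2) (by omega)
    rw [show N + 2 - Q.natDegree = (N + 1 - Q.natDegree) + 1 by omega] at h1
    have h2 : reflect (N + 2) Q = C Q.leadingCoeff * (LM Q.roots * X ^ (N + 1 - Q.natDegree + 1)) := by
      rw [h1]
      ring
    rw [h2, fP_C_mul]
    apply Splits.C_mul
    generalize N + 1 - Q.natDegree = μ at hcard
    rcases hroots with h | h
    · exact nn N g hg hgd hg1 _ h _ (by
        have := hQs.natDegree_eq_card_roots
        omega) hcard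
    · have h3 := nn N g hg hgd hg1 (Q.roots.map (fun x => -x)) (by
        intro x hx
        rw [Multiset.mem_map] at hx
        obtain ⟨y, hy, rfl⟩ := hx
        have := h y hy
        linarith) μ (by
        have := hQs.natDegree_eq_card_roots
        omega) (by rw [Multiset.card_map]; exact hcard)
      have h4 : LM Q.roots * X ^ (μ + 1) = C ((-1) ^ (μ + 1)) *
          sc (-1) (LM (Q.roots.map (fun x => -x)) * X ^ (μ + 1)) := by
        have e1 : sc (-1) (LM (Q.roots.map (fun x => -x)) * X ^ (μ + 1)) =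
            sc (-1) (LM (Q.roots.map (fun x => -x))) * sc (-1) (X ^ (μ + 1)) := by
          unfold sc
          rw [mul_comp]
        have e2 : sc (-1) (X ^ (μ + 1) : ℝ[X]) = C ((-1) ^ (μ + 1)) * X ^ (μ + 1) := by
          unfold sc
          rw [X_pow_comp, mul_pow, C_pow]
        have e3 : (C ((-1 : ℝ) ^ (μ + 1)) * C ((-1 : ℝ) ^ (μ + 1)) : ℝ[X]) = 1 := by
          rw [← C_mul, ← mul_pow]
          simp
        rw [e1, e2, sc_LM, Multiset.map_map]
        have e4 : Q.roots.map ((fun x => -x) ∘ (fun x => -x)) = Q.roots := by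
          simp
        rw [e4]
        linear_combination (-(LM Q.roots * X ^ (μ + 1))) * e3
      rw [h4, fP_C_mul, fP_sc]
      apply Splits.C_mul
      have h6 : sc (-1) (fP (N + 2) (reflect (N + 2) g)
          (LM (Q.roots.map (fun x => -x)) * X ^ (μ + 1))) =
          (fP (N + 2) (reflect (N + 2) g)
          (LM (Q.roots.map (fun x => -x)) * X ^ (μ + 1))).comp (-X) := by
        unfold sc; simp
      rw [h6]
      exact h3.comp_neg_X
  have h2 : P = reflect (N + 2) (reflect (N + 2) P) := by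
    ext k; rw [coeff_reflect, coeff_reflect, revAt_invol]
  rw [h2]
  apply splits_reflect (N + 2) _ (by rw [hrefl]; exact hfs)
  rw [hrefl]
  exact fP_natDegree _ _ _

end X190.ZSum
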